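import Pool.Agent.Helper70_A2.Main

/-!
# Affineness of A2-fibre spaces over Dedekind schemes of residue characteristic zero

The negated form of question Q1 holds, without the contractibility hypothesis: if D is a Dedekind
scheme all of whose residue fields have characteristic zero and f : X ⟶ D is smooth, separated and
of finite type with every fibre isomorphic to the affine plane over the residue field, then f is an
affine morphism.
-/

universe u

open CategoryTheory AlgebraicGeometry

namespace Pool.Agent.Results.MP_4f79d0_ag.PlaneFibreAffine

/-- A Dedekind scheme: separated, integral, locally Noetherian, and the local ring at every closed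
point is a discrete valuation ring or (for spectra of fields) a field. -/
structure IsDedekind (D : Scheme.{u}) : Prop where
  isSeparated : D.IsSeparated
  isIntegral : IsIntegral D
  isLocallyNoetherian : IsLocallyNoetherian D
  stalk : ∀ d : D, IsClosed ({d} : Set D) → IsField (D.presheaf.stalk d) ∨
    ∃ _ : IsDomain (D.presheaf.stalk d), IsDiscreteValuationRing (D.presheaf.stalk d)

/-- An `A^2`-fibre space: a smooth, separated, quasi-compact morphism (so smooth, separated and of
finite type) whose fibre over every point `d` is isomorphic to the spectrum of the polynomial ring
in two variables over the residue field `κ(d)`, as a scheme over `κ(d)`. -/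
structure IsA2FibreSpace {D X : Scheme.{u}} (f : X ⟶ D) : Prop where
  smooth : Smooth f
  isSeparated : IsSeparated f
  quasiCompact : QuasiCompact f
  fibre : ∀ d : D, ∃ e : f.fiber d ≅
      Spec (CommRingCat.of (MvPolynomial (Fin 2) (D.residueField d))),
    e.hom ≫ Spec.map (CommRingCat.ofHom
      (algebraMap (D.residueField d) (MvPolynomial (Fin 2) (D.residueField d)))) =
      f.fiberToSpecResidueField d

/-- Every `A^2`-fibre space over a Dedekind scheme all of whose residue fields have characteristic
zero is an affine morphism. -/
theorem result (D X : Scheme.{u}) (f : X ⟶ D) (hD : IsDedekind D)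
    (hchar : ∀ d : D, CharZero (D.residueField d)) (hf : IsA2FibreSpace f) :
    IsAffineHom f :=
  H70A2.main D X f ⟨hD.isSeparated, hD.isIntegral, hD.isLocallyNoetherian, hD.stalk⟩ hchar
    ⟨hf.smooth, hf.isSeparated, hf.quasiCompact, hf.fibre⟩

end Pool.Agent.Results.MP_4f79d0_ag.PlaneFibreAffine
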